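import Pool.Agent.X14.PolySum
import Pool.Agent.X14.S3Log
import Pool.Agent.X14.Bala

set_option autoImplicit false

namespace Pool.Agent.Results.MP_2064c1_nt.SumOfA

open Finset Pool.Agent.H434R2 Pool.Agent.H434R2.PO Pool.Agent.X14

/-- `a(n) = ∑_{0 ≤ j ≤ n} C(n+j,j) C(n,j) C(n-j,j)` -/
def a (n : ℕ) : ℕ := ∑ j ∈ range (n + 1), (n + j).choose j * n.choose j * (n - j).choose j

/-- rearranged summand -/
def t (n j : ℕ) : ℕ := (n + j).choose (3 * j) * ((3 * j).choose j * (2 * j).choose j)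

lemma t_zero {n j : ℕ} (h : n < 2 * j) : t n j = 0 := by
  unfold t; rw [Nat.choose_eq_zero_of_lt (by omega)]; simp

lemma t_eq {n j : ℕ} (hj : j ≤ n) : (n + j).choose j * n.choose j * (n - j).choose j = t n j := by
  rcases Nat.lt_or_ge n (2 * j) with h | h
  · rw [t_zero h, Nat.choose_eq_zero_of_lt (show n - j < j by omega)]; simp
  · unfold t
    have h1 : (((n + j).choose j * n.choose j * (n - j).choose j : ℕ) : ℚ) =
        (((n + j).choose (3 * j) * ((3 * j).choose j * (2 * j).choose j) : ℕ) : ℚ) := by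
      push_cast
      rw [Nat.cast_choose ℚ (show j ≤ n + j by omega), Nat.cast_choose ℚ hj, Nat.cast_choose ℚ (show j ≤ n - j by omega),
        Nat.cast_choose ℚ (show 3 * j ≤ n + j by omega), Nat.cast_choose ℚ (show j ≤ 3 * j by omega),
        Nat.cast_choose ℚ (show j ≤ 2 * j by omega)]
      have e1 : n + j - j = n := by omega
      have e2 : n - j - j = n + j - 3 * j := by omega
      have e3 : 3 * j - j = 2 * j := by omega
      have e4 : 2 * j - j = j := by omega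
      rw [e1, e2, e3, e4]
      have f1 : ((n).factorial : ℚ) ≠ 0 := by positivity
      have f2 : ((n - j).factorial : ℚ) ≠ 0 := by positivity
      have f3 : ((n + j - 3 * j).factorial : ℚ) ≠ 0 := by positivity
      have f4 : ((3 * j).factorial : ℚ) ≠ 0 := by positivity
      have f5 : ((2 * j).factorial : ℚ) ≠ 0 := by positivity
      have f6 : ((j).factorial : ℚ) ≠ 0 := by positivity
      field_simp
    exact_mod_cast h1

lemma a_eq {n m : ℕ} (hn : n ≤ 3 * m) : a n = ∑ j ∈ range (2 * m + 1), t n j := by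
  unfold a
  rw [sum_congr rfl (fun j hj => t_eq (n := n) (j := j) (by have := mem_range.1 hj; omega))]
  have h1 : ∑ j ∈ range (n + 1), t n j = ∑ j ∈ range (n + 1 + (2 * m + 1)), t n j := by
    apply Finset.sum_subset
    · intro x hx; rw [mem_range] at *; omega
    · intro x _ hx
      rw [mem_range, not_lt] at hx
      exact t_zero (by omega)
  have h2 : ∑ j ∈ range (2 * m + 1), t n j = ∑ j ∈ range (n + 1 + (2 * m + 1)), t n j := by
    apply Finset.sum_subset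
    · intro x hx; rw [mem_range] at *; omega
    · intro x _ hx
      rw [mem_range, not_lt] at hx
      exact t_zero (by omega)
  rw [h1, h2]

lemma hockey (P j : ℕ) : ∑ n ∈ range P, (n + j).choose (3 * j) = (P + j).choose (3 * j + 1) := by
  induction P with
  | zero => rw [Nat.choose_eq_zero_of_lt (by omega)]; simp
  | succ P ih =>
    rw [sum_range_succ, ih]
    have : P + 1 + j = (P + j) + 1 := by ring
    rw [this, Nat.choose_succ_succ']; ring

/-- the product formula -/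
lemma prod_formula {P : ℕ} (hP : 1 ≤ P) (j : ℕ) :
    (((P + j).choose (3 * j + 1) * ((3 * j).choose j * (2 * j).choose j) : ℕ) : ℚ) =
      (P : ℚ) / (3 * (j : ℚ) + 1) * (((P + j).choose j : ℚ) * ((P - 1).choose (2 * j) : ℚ) * ((2 * j).choose j : ℚ)) := by
  rcases Nat.lt_or_ge (P - 1) (2 * j) with h | h
  · rw [Nat.choose_eq_zero_of_lt h, Nat.choose_eq_zero_of_lt (show P + j < 3 * j + 1 by omega)]; simp
  · push_cast
    rw [Nat.cast_choose ℚ (show 3 * j + 1 ≤ P + j by omega), Nat.cast_choose ℚ (show j ≤ 3 * j by omega),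
      Nat.cast_choose ℚ (show j ≤ P + j by omega), Nat.cast_choose ℚ (show 2 * j ≤ P - 1 by omega)]
    have e1 : P + j - j = P := by omega
    have e2 : P + j - (3 * j + 1) = P - 1 - 2 * j := by omega
    have e3 : 3 * j - j = 2 * j := by omega
    rw [e1, e2, e3, Nat.factorial_succ]
    have e4 : (P.factorial : ℚ) = P * ((P - 1).factorial : ℚ) := by
      have : P.factorial = P * (P - 1).factorial := (Nat.mul_factorial_pred (by omega)).symm
      rw [this]; push_cast; ring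
    rw [e4]
    have f1 : ((P - 1).factorial : ℚ) ≠ 0 := by positivity
    have f3 : ((P - 1 - 2 * j).factorial : ℚ) ≠ 0 := by positivity
    have f4 : ((3 * j).factorial : ℚ) ≠ 0 := by positivity
    have f5 : ((2 * j).factorial : ℚ) ≠ 0 := by positivity
    have f6 : ((j).factorial : ℚ) ≠ 0 := by positivity
    have f7 : (P : ℚ) ≠ 0 := by positivity
    push_cast
    field_simp

variable {p : ℕ} [hp : Fact p.Prime]

/-- units -/
lemma iu {n : ℕ} (h0 : 0 < n) (h1 : n < p) : PO p 0 ((n : ℚ)⁻¹) := by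
  apply inv_nat
  intro hd
  have := Nat.le_of_dvd h0 hd
  omega

/-- `C(2j,j) ≡ (-1)^j C(p-1-j,j) (mod p)` -/
lemma choose_refl {j : ℕ} (hj : 2 * j < p) :
    PO p 1 (((2 * j).choose j : ℚ) - (-1) ^ j * ((p - 1 - j).choose j : ℚ)) := by
  have h1 : (((2 * j).descFactorial j : ℕ) : ZMod p) = (-1) ^ j * (((p - 1 - j).descFactorial j : ℕ) : ZMod p) := by
    rw [Nat.descFactorial_eq_prod_range, Nat.descFactorial_eq_prod_range, ← Finset.prod_range_reflect (fun i => p - 1 - j - i)]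
    push_cast
    have e0 : (-1 : ZMod p) ^ j = ∏ i ∈ range j, (-1 : ZMod p) := by simp
    rw [e0, ← prod_mul_distrib]
    apply prod_congr rfl
    intro i hi
    have hi' := mem_range.1 hi
    have e1 : (2 * j - i) + (p - 1 - j - (j - 1 - i)) = p := by omega
    have e2 : (((2 * j - i) + (p - 1 - j - (j - 1 - i)) : ℕ) : ZMod p) = 0 := by
      rw [e1]; exact ZMod.natCast_self p
    rw [Nat.cast_add] at e2
    linear_combination e2
  rw [Nat.descFactorial_eq_factorial_mul_choose, Nat.descFactorial_eq_factorial_mul_choose] at h1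
  have hf : ¬ (p : ℤ) ∣ (j.factorial : ℤ) := by
    intro hd
    have hd' : p ∣ j.factorial := by exact_mod_cast hd
    have := (hp.out.dvd_factorial).1 hd'
    omega
  have h2 : (p : ℤ) ∣ (j.factorial : ℤ) * (((2 * j).choose j : ℤ) - (-1) ^ j * ((p - 1 - j).choose j : ℤ)) := by
    apply (ZMod.intCast_zmod_eq_zero_iff_dvd _ p).1
    push_cast at h1 ⊢
    linear_combination h1
  have h3 := ((Nat.prime_iff_prime_int.1 hp.out).dvd_or_dvd h2).resolve_left hf
  have h4 := PO_of_dvd (p := p) (k := 1) (z := ((2 * j).choose j : ℤ) - (-1) ^ j * ((p - 1 - j).choose j : ℤ)) (by rwa [pow_one])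
  push_cast at h4
  exact h4

lemma choose_add_one {j : ℕ} (hj : j < p) : PO p 1 (((p + j).choose j : ℚ) - 1) := by
  rw [Bala.choose_add]
  apply prod_one
  intro i hi
  have hi' := mem_range.1 hi
  unfold Bala.xx
  rw [add_sub_cancel_left, div_eq_mul_inv]
  exact p_PO.mul0' (inv_succ (by omega))

lemma choose_pred_one {j : ℕ} (hj : j < p) : PO p 1 (((p - 1).choose j : ℚ) - (-1) ^ j) := by
  rw [Bala.choose_pred p j hp.out.one_lt.le]
  have e : (-1 : ℚ) ^ j * ∏ i ∈ range j, (1 - Bala.xx p i) - (-1) ^ j = (-1 : ℚ) ^ j * (∏ i ∈ range j, (1 - Bala.xx p i) - 1) := by ring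
  rw [e]
  refine PO.mul0 ?_ ?_
  · have := of_int (p := p) ((-1) ^ j)
    push_cast at this; exact this
  · apply prod_one
    intro i hi
    have hi' := mem_range.1 hi
    unfold Bala.xx
    rw [div_eq_mul_inv]
    have e : 1 - (p : ℚ) * ((i : ℚ) + 1)⁻¹ - 1 = -((p : ℚ) * ((i : ℚ) + 1)⁻¹) := by ring
    rw [e]
    exact (p_PO.mul0' (inv_succ (by omega))).neg

/-- the reduced coefficients -/
def c (p j : ℕ) : ℚ := ((p + j).choose j : ℚ) * ((p - 1).choose (2 * j) : ℚ) * ((2 * j).choose j : ℚ)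

lemma c_cong (h1 : 1 < p) (j : ℕ) (hj : j < p) : PO p 1 (c p j - (-1) ^ j * ((p - 1 - j).choose j : ℚ)) := by
  unfold c
  rcases Nat.lt_or_ge (p - 1) (2 * j) with h | h
  · rw [Nat.choose_eq_zero_of_lt h, Nat.choose_eq_zero_of_lt (show p - 1 - j < j by omega)]
    simpa using PO.zero (p := p) 1
  · have a1 := choose_add_one (p := p) hj
    have a2 := choose_pred_one (p := p) (j := 2 * j) (by omega)
    rw [pow_mul, neg_one_sq, one_pow] at a2
    have a3 := choose_refl (p := p) (j := j) (by omega)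
    have e : ((p + j).choose j : ℚ) * ((p - 1).choose (2 * j) : ℚ) * ((2 * j).choose j : ℚ) - (-1) ^ j * ((p - 1 - j).choose j : ℚ) =
        (((p + j).choose j : ℚ) - 1) * (((p - 1).choose (2 * j) : ℚ) * ((2 * j).choose j : ℚ)) +
        (((p - 1).choose (2 * j) : ℚ) - 1) * ((2 * j).choose j : ℚ) +
        (((2 * j).choose j : ℚ) - (-1) ^ j * ((p - 1 - j).choose j : ℚ)) := by ring
    rw [e]
    exact ((a1.mul0' ((of_nat _).mul0 (of_nat _))).add (a2.mul0' (of_nat _))).add a3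

/-- the harmonic sum over `m+1, …, 2m` -/
lemma harm (h2 : p ≠ 2) {m : ℕ} (hm : p = 3 * m + 1) : PO p 1 (∑ i ∈ range m, 1 / ((m : ℚ) + i + 1)) := by
  have e : ∑ i ∈ range m, 1 / ((m : ℚ) + i + 1) =
      1 / 2 * ∑ i ∈ range m, (1 / ((m : ℚ) + ((m - 1 - i : ℕ) : ℚ) + 1) + 1 / ((m : ℚ) + i + 1)) := by
    rw [sum_add_distrib, Finset.sum_range_reflect (fun i => 1 / ((m : ℚ) + (i : ℚ) + 1))]
    ring
  rw [e]
  refine PO.mul0 (half h2) (PO.sum _ _ ?_)
  intro i hi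
  have hi' := mem_range.1 hi
  have c1 : ((m - 1 - i : ℕ) : ℚ) = m - 1 - i := by
    rw [Nat.cast_sub (by omega), Nat.cast_sub (by omega)]; push_cast; ring
  have hpq : (p : ℚ) = 3 * m + 1 := by rw [hm]; push_cast; ring
  have u1 := iu (p := p) (n := m + i + 1) (by omega) (by omega)
  have u2 := iu (p := p) (n := m + (m - 1 - i) + 1) (by omega) (by omega)
  push_cast at u1 u2
  have n1 : (m : ℚ) + i + 1 ≠ 0 := by positivity
  have n2 : (m : ℚ) + ((m - 1 - i : ℕ) : ℚ) + 1 ≠ 0 := by positivity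
  have e2 : 1 / ((m : ℚ) + ((m - 1 - i : ℕ) : ℚ) + 1) + 1 / ((m : ℚ) + i + 1) =
      (p : ℚ) * (((m : ℚ) + ((m - 1 - i : ℕ) : ℚ) + 1)⁻¹ * ((m : ℚ) + i + 1)⁻¹) := by
    have e3 : (p : ℚ) = ((m : ℚ) + ((m - 1 - i : ℕ) : ℚ) + 1) + ((m : ℚ) + i + 1) := by rw [hpq, c1]; ring
    rw [e3]
    field_simp
    ring
  rw [e2]
  exact p_PO.mul0' (u2.mul0 u1)

lemma sum_split3 (m : ℕ) (f : ℕ → ℚ) :
    ∑ j ∈ range (2 * m + 1), f j = ∑ i ∈ range m, f (m - 1 - i) + f m + ∑ i ∈ range m, f (m + 1 + i) := by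
  rw [show 2 * m + 1 = m + 1 + m by ring, sum_range_add, sum_range_succ, Finset.sum_range_reflect]

/-- the key sum -/
lemma key (h2 : p ≠ 2) {m : ℕ} (hm : p = 3 * m + 1) :
    PO p 1 (∑ i ∈ range m, (-1 : ℚ) ^ (m - 1 - i) * ((3 * m - (m - 1 - i)).choose (m - 1 - i) : ℚ) / ((i : ℚ) + 1) -
      ∑ i ∈ range m, (-1 : ℚ) ^ (m + 1 + i) * ((3 * m - (m + 1 + i)).choose (m + 1 + i) : ℚ) / ((i : ℚ) + 1)) := by
  have hid := S3Log.identity m
  have hh := S3Log.harmonic_identity (2 * m) m (by omega)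
  rw [show 2 * m - m = m by omega] at hh
  rw [hh] at hid
  have e1 : ∑ i ∈ range m, (-1 : ℚ) ^ (m - 1 - i) * ((3 * m - (m - 1 - i)).choose (m - 1 - i) : ℚ) / ((i : ℚ) + 1) =
      (-1) ^ m * ∑ i ∈ range m, ((-1 : ℚ) ^ (i + 1) / ((i : ℚ) + 1)) * ((2 * m + (i + 1)).choose (m + 2 * (i + 1)) : ℚ) := by
    rw [mul_sum]
    apply sum_congr rfl
    intro i hi
    have hi' := mem_range.1 hi
    have c1 : 3 * m - (m - 1 - i) = 2 * m + (i + 1) := by omega
    have c2 : (2 * m + (i + 1)).choose (m - 1 - i) = (2 * m + (i + 1)).choose (m + 2 * (i + 1)) := by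
      apply Nat.choose_symm_of_eq_add
      omega
    have c3 : (-1 : ℚ) ^ (m - 1 - i) = (-1) ^ m * (-1) ^ (i + 1) := by
      obtain ⟨l, hl⟩ : ∃ l, m = l + (i + 1) := ⟨m - (i + 1), by omega⟩
      have : m - 1 - i = l := by omega
      rw [this]
      conv_rhs => rw [hl]
      rw [pow_add, mul_assoc, ← mul_pow]; norm_num
    rw [c1, c2, c3]; ring
  have e2 : ∑ i ∈ range m, (-1 : ℚ) ^ (m + 1 + i) * ((3 * m - (m + 1 + i)).choose (m + 1 + i) : ℚ) / ((i : ℚ) + 1) =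
      -((-1) ^ m * ∑ i ∈ range m, ((-1 : ℚ) ^ i / ((i : ℚ) + 1)) * ((2 * m - (i + 1)).choose (m + (i + 1)) : ℚ)) := by
    rw [mul_sum, ← sum_neg_distrib]
    apply sum_congr rfl
    intro i hi
    have hi' := mem_range.1 hi
    have c1 : 3 * m - (m + 1 + i) = 2 * m - (i + 1) := by omega
    have c2 : m + 1 + i = m + (i + 1) := by ring
    rw [c1, c2, pow_add, pow_add]; ring
  rw [e1, e2]
  have e3 : (-1 : ℚ) ^ m * ∑ i ∈ range m, ((-1 : ℚ) ^ (i + 1) / ((i : ℚ) + 1)) * ((2 * m + (i + 1)).choose (m + 2 * (i + 1)) : ℚ) -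
      -((-1) ^ m * ∑ i ∈ range m, ((-1 : ℚ) ^ i / ((i : ℚ) + 1)) * ((2 * m - (i + 1)).choose (m + (i + 1)) : ℚ)) =
      -((-1) ^ m * (((2 * m).choose m : ℚ) * ∑ i ∈ range m, 1 / ((m : ℚ) + i + 1))) := by
    linear_combination (-1 : ℚ) ^ m * hid
  rw [e3]
  refine (PO.mul0 ?_ (PO.mul0 (of_nat _) (harm h2 hm))).neg
  have := of_int (p := p) ((-1) ^ m)
  push_cast at this; exact this

/-- the middle coefficient -/
lemma c_mid (h2 : p ≠ 2) {m : ℕ} (hm : p = 3 * m + 1) : PO p 2 (c p m - ((2 * m).choose m : ℚ)) := by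
  unfold c
  rw [Bala.choose_add, Bala.choose_pred p (2 * m) hp.out.one_lt.le, pow_mul, neg_one_sq, one_pow, one_mul]
  have e0 : ∏ i ∈ range (2 * m), (1 - Bala.xx p i) = (∏ i ∈ range m, (1 - Bala.xx p i)) * ∏ i ∈ range m, (1 - Bala.xx p (m + i)) := by
    rw [two_mul, prod_range_add]
  have hx : ∀ i, i < 2 * m → PO p 1 (Bala.xx p i) := by
    intro i hi
    unfold Bala.xx
    rw [div_eq_mul_inv]
    exact p_PO.mul0' (inv_succ (by omega))
  have f1 : PO p 2 ((∏ i ∈ range m, (1 + Bala.xx p i)) * (∏ i ∈ range m, (1 - Bala.xx p i)) - 1) := by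
    rw [← prod_mul_distrib]
    apply prod_one
    intro i hi
    have hi' := mem_range.1 hi
    have e : (1 + Bala.xx p i) * (1 - Bala.xx p i) - 1 = -(Bala.xx p i ^ 2) := by ring
    rw [e]
    exact ((hx i (by omega)).pow 2).neg
  have f2 : PO p 2 (∏ i ∈ range m, (1 - Bala.xx p (m + i)) - 1) := by
    have h3 := prod_one_add (p := p) (k := 1) (range m) (fun i => -Bala.xx p (m + i))
      (fun i hi => (hx (m + i) (by have := mem_range.1 hi; omega)).neg)
    have h4 : PO p 2 (∑ i ∈ range m, (-Bala.xx p (m + i))) := by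
      have e : ∑ i ∈ range m, (-Bala.xx p (m + i)) = -((p : ℚ) * ∑ i ∈ range m, 1 / ((m : ℚ) + i + 1)) := by
        rw [mul_sum, ← sum_neg_distrib]
        apply sum_congr rfl
        intro i _
        unfold Bala.xx
        push_cast
        rw [← mul_div_assoc, mul_one]
      rw [e]
      exact (p_PO.mul (harm h2 hm)).neg
    have e : ∏ i ∈ range m, (1 - Bala.xx p (m + i)) - 1 =
        (∏ i ∈ range m, (1 + -Bala.xx p (m + i)) - (1 + ∑ i ∈ range m, (-Bala.xx p (m + i)))) +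
        ∑ i ∈ range m, (-Bala.xx p (m + i)) := by
      have : ∏ i ∈ range m, (1 - Bala.xx p (m + i)) = ∏ i ∈ range m, (1 + -Bala.xx p (m + i)) := by
        apply prod_congr rfl; intro i _; ring
      rw [this]; ring
    rw [e]
    exact h3.add h4
  rw [e0]
  set A := ∏ i ∈ range m, (1 + Bala.xx p i)
  set B := ∏ i ∈ range m, (1 - Bala.xx p i)
  set D := ∏ i ∈ range m, (1 - Bala.xx p (m + i))
  have e : A * (B * D) * ((2 * m).choose m : ℚ) - ((2 * m).choose m : ℚ) =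
      ((2 * m).choose m : ℚ) * ((A * B - 1) * (D - 1) + (A * B - 1) + (D - 1)) := by ring
  rw [e]
  refine PO.mul0 (of_nat _) (((f1.mul0' (f2.mono (by omega))).add f1).add f2)

/-- **Q1 (Sun 2016).** For every prime `p ≡ 1 (mod 3)`, with `m = (p-1)/3`,
`a(0) + ⋯ + a(p-1) ≡ C(2m, m) (mod p^2)`. -/
theorem result : ∀ p : ℕ, p.Prime → p % 3 = 1 →
    (p : ℤ) ^ 2 ∣ (∑ k ∈ range p, (a k : ℤ)) - ((2 * ((p - 1) / 3)).choose ((p - 1) / 3) : ℤ) := by
  intro p hpp h3
  have hp : Fact p.Prime := ⟨hpp⟩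
  obtain ⟨m, hm⟩ : ∃ m, p = 3 * m + 1 := ⟨p / 3, by omega⟩
  have hm' : (p - 1) / 3 = m := by omega
  have h2 : p ≠ 2 := by omega
  rw [hm']
  apply dvd_of_PO
  have hsum : ∑ k ∈ range p, a k = ∑ j ∈ range (2 * m + 1), (p + j).choose (3 * j + 1) * ((3 * j).choose j * (2 * j).choose j) := by
    have e0 : ∀ k ∈ range p, a k = ∑ j ∈ range (2 * m + 1), t k j := by
      intro k hk
      have := mem_range.1 hk
      exact a_eq (by omega)
    rw [sum_congr rfl e0, sum_comm]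
    apply sum_congr rfl
    intro j _
    unfold t
    rw [← sum_mul, hockey]
  have hsumq : ((∑ k ∈ range p, (a k : ℤ) : ℤ) : ℚ) = ∑ j ∈ range (2 * m + 1), (p : ℚ) / (3 * (j : ℚ) + 1) * c p j := by
    have : ((∑ k ∈ range p, (a k : ℤ) : ℤ) : ℚ) = ((∑ k ∈ range p, a k : ℕ) : ℚ) := by push_cast; rfl
    rw [this, hsum, Nat.cast_sum]
    apply sum_congr rfl
    intro j _
    rw [prod_formula hpp.one_lt.le]
    rfl
  rw [Int.cast_sub, hsumq, Int.cast_natCast]
  have hpq : (p : ℚ) = 3 * m + 1 := by rw [hm]; push_cast; ring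
  have hpq0 : (p : ℚ) ≠ 0 := by exact_mod_cast hpp.ne_zero
  rw [sum_split3]
  have e1 : (p : ℚ) / (3 * (m : ℚ) + 1) * c p m = c p m := by rw [← hpq, div_self hpq0, one_mul]
  rw [e1]
  have i3 : PO p 0 ((1 / 3 : ℚ)) := by
    have h2le := hpp.two_le
    have := iu (p := p) (n := 3) (by norm_num) (by omega)
    push_cast at this
    rwa [one_div]
  -- off-middle terms
  have off1 : ∀ i ∈ range m, PO p 2 ((p : ℚ) / (3 * ((m - 1 - i : ℕ) : ℚ) + 1) * c p (m - 1 - i) -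
      (p : ℚ) * (-(1 / 3) * ((-1 : ℚ) ^ (m - 1 - i) * ((3 * m - (m - 1 - i)).choose (m - 1 - i) : ℚ) / ((i : ℚ) + 1)))) := by
    intro i hi
    have hi' := mem_range.1 hi
    have hc := c_cong (p := p) hpp.one_lt (m - 1 - i) (by omega)
    rw [show p - 1 - (m - 1 - i) = 3 * m - (m - 1 - i) by omega] at hc
    have c1 : ((m - 1 - i : ℕ) : ℚ) = m - 1 - i := by
      rw [Nat.cast_sub (by omega), Nat.cast_sub (by omega)]; push_cast; ring
    have u1 := iu (p := p) (n := 3 * (m - 1 - i) + 1) (by omega) (by omega)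
    push_cast at u1
    have u2 := iu (p := p) (n := i + 1) (by omega) (by omega)
    push_cast at u2
    have n1 : 3 * ((m - 1 - i : ℕ) : ℚ) + 1 ≠ 0 := by positivity
    have n2 : (i : ℚ) + 1 ≠ 0 := by positivity
    set g := (-1 : ℚ) ^ (m - 1 - i) * ((3 * m - (m - 1 - i)).choose (m - 1 - i) : ℚ) with hg
    have hg0 : PO p 0 g := by
      rw [hg]
      refine PO.mul0 ?_ (of_nat _)
      have := of_int (p := p) ((-1) ^ (m - 1 - i))
      push_cast at this; exact this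
    have e : (p : ℚ) / (3 * ((m - 1 - i : ℕ) : ℚ) + 1) * c p (m - 1 - i) - (p : ℚ) * (-(1 / 3) * (g / ((i : ℚ) + 1))) =
        (p : ℚ) * ((3 * ((m - 1 - i : ℕ) : ℚ) + 1)⁻¹ * (c p (m - 1 - i) - g) +
          (p : ℚ) * (g * ((3 * ((m - 1 - i : ℕ) : ℚ) + 1)⁻¹ * ((i : ℚ) + 1)⁻¹ * (1 / 3)))) := by
      have e3 : (p : ℚ) = (3 * ((m - 1 - i : ℕ) : ℚ) + 1) + 3 * ((i : ℚ) + 1) := by rw [hpq, c1]; ring
      have e4 : (3 * ((m - 1 - i : ℕ) : ℚ) + 1)⁻¹ * g + (p : ℚ) * (g * ((3 * ((m - 1 - i : ℕ) : ℚ) + 1)⁻¹ * ((i : ℚ) + 1)⁻¹ * (1 / 3))) -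
          2 * ((3 * ((m - 1 - i : ℕ) : ℚ) + 1)⁻¹ * g) = 1 / 3 * (g / ((i : ℚ) + 1)) := by
        rw [e3]
        field_simp
        ring
      rw [div_eq_mul_inv]
      linear_combination (-(p : ℚ)) * e4
    rw [e]
    have := p_PO.mul ((PO.mul0 u1 hc).add (p_PO.mul0' (hg0.mul0 ((u1.mul0 u2).mul0 i3))))
    exact this
  have off2 : ∀ i ∈ range m, PO p 2 ((p : ℚ) / (3 * ((m + 1 + i : ℕ) : ℚ) + 1) * c p (m + 1 + i) -
      (p : ℚ) * ((1 / 3) * ((-1 : ℚ) ^ (m + 1 + i) * ((3 * m - (m + 1 + i)).choose (m + 1 + i) : ℚ) / ((i : ℚ) + 1)))) := by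
    intro i hi
    have hi' := mem_range.1 hi
    have hc := c_cong (p := p) hpp.one_lt (m + 1 + i) (by omega)
    rw [show p - 1 - (m + 1 + i) = 3 * m - (m + 1 + i) by omega] at hc
    have u1 : PO p 0 ((3 * ((m + 1 + i : ℕ) : ℚ) + 1)⁻¹) := by
      have h5 : ¬ p ∣ 3 * (m + 1 + i) + 1 := by
        intro hd
        have e : 3 * (m + 1 + i) + 1 = p + 3 * (i + 1) := by omega
        rw [e] at hd
        have h6 := (Nat.dvd_add_right (dvd_refl p)).1 hd
        have := Nat.le_of_dvd (by omega) h6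
        omega
      have := inv_nat (p := p) h5
      push_cast at this ⊢
      exact this
    have u2 := iu (p := p) (n := i + 1) (by omega) (by omega)
    push_cast at u2
    have n1 : 3 * ((m + 1 + i : ℕ) : ℚ) + 1 ≠ 0 := by positivity
    have n2 : (i : ℚ) + 1 ≠ 0 := by positivity
    set g := (-1 : ℚ) ^ (m + 1 + i) * ((3 * m - (m + 1 + i)).choose (m + 1 + i) : ℚ) with hg
    have hg0 : PO p 0 g := by
      rw [hg]
      refine PO.mul0 ?_ (of_nat _)
      have := of_int (p := p) ((-1) ^ (m + 1 + i))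
      push_cast at this; exact this
    have e : (p : ℚ) / (3 * ((m + 1 + i : ℕ) : ℚ) + 1) * c p (m + 1 + i) - (p : ℚ) * ((1 / 3) * (g / ((i : ℚ) + 1))) =
        (p : ℚ) * ((3 * ((m + 1 + i : ℕ) : ℚ) + 1)⁻¹ * (c p (m + 1 + i) - g) -
          (p : ℚ) * (g * ((3 * ((m + 1 + i : ℕ) : ℚ) + 1)⁻¹ * ((i : ℚ) + 1)⁻¹ * (1 / 3)))) := by
      have e3 : (p : ℚ) = (3 * ((m + 1 + i : ℕ) : ℚ) + 1) - 3 * ((i : ℚ) + 1) := by rw [hpq]; push_cast; ring
      have e4 : (3 * ((m + 1 + i : ℕ) : ℚ) + 1)⁻¹ * g + (p : ℚ) * (g * ((3 * ((m + 1 + i : ℕ) : ℚ) + 1)⁻¹ * ((i : ℚ) + 1)⁻¹ * (1 / 3))) =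
          1 / 3 * (g / ((i : ℚ) + 1)) := by
        rw [e3]
        field_simp
        ring
      rw [div_eq_mul_inv]
      linear_combination (-(p : ℚ)) * (-e4)
    rw [e]
    have := p_PO.mul ((PO.mul0 u1 hc).sub (p_PO.mul0' (hg0.mul0 ((u1.mul0 u2).mul0 i3))))
    exact this
  have hk := key (p := p) h2 hm
  have e5 : ∀ A B C A' B' : ℚ, A + c p m + B - C = (A - A') + (B - B') + (c p m - C) + (A' + B') := by intros; ring
  rw [e5 _ _ _ (∑ i ∈ range m, (p : ℚ) * (-(1 / 3) * ((-1 : ℚ) ^ (m - 1 - i) * ((3 * m - (m - 1 - i)).choose (m - 1 - i) : ℚ) / ((i : ℚ) + 1))))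
    (∑ i ∈ range m, (p : ℚ) * ((1 / 3) * ((-1 : ℚ) ^ (m + 1 + i) * ((3 * m - (m + 1 + i)).choose (m + 1 + i) : ℚ) / ((i : ℚ) + 1))))]
  refine PO.add (PO.add (PO.add (sum_sub _ _ _ off1) (sum_sub _ _ _ off2)) (c_mid h2 hm)) ?_
  rw [← mul_sum, ← mul_sum, ← mul_sum, ← mul_sum]
  have e6 : ∀ A B : ℚ, (p : ℚ) * (-(1 / 3) * A) + (p : ℚ) * ((1 / 3) * B) = (p : ℚ) * (-(1 / 3) * (A - B)) := by intros; ring
  rw [e6]
  exact p_PO.mul (PO.mul0 i3.neg hk)

end Pool.Agent.Results.MP_2064c1_nt.SumOfA
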